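import Pool.Agent.Lib.MP_2f7009_an.Sep

/-!
# MP_2f7009_an, Q1: the dual ball is the (I)-envelope of the weak-star exposed points

For every separable Banach space over `ℝ` or `ℂ` (both cases: `[RCLike 𝕜]`), in every universe.
-/

open Set Metric

namespace Pool.Agent.Results.MP_2f7009_an.AllScalars

section Defs

variable (𝕜 : Type*) [RCLike 𝕜] (X : Type*) [NormedAddCommGroup X] [NormedSpace 𝕜 X]

/-- `E(X)`: the weak-star exposed points of the dual unit ball. -/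
def Exposed : Set (StrongDual 𝕜 X) :=
  {ξ | ‖ξ‖ ≤ 1 ∧ ∃ x : X, ∀ η : StrongDual 𝕜 X, ‖η‖ ≤ 1 → η ≠ ξ →
    RCLike.re (η x) < RCLike.re (ξ x)}

/-- the weak-star closure of a set of functionals. -/
def wclosure (C : Set (StrongDual 𝕜 X)) : Set (StrongDual 𝕜 X) :=
  {φ | StrongDual.toWeakDual φ ∈ closure (StrongDual.toWeakDual '' C)}

/-- the (I)-envelope of `A`: the intersection, over all ways of writing `A` as a countable union of
sets `B n`, of the norm closures of `co (⋃ n, wclosure (co (B n)))`. -/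
def Ienv (A : Set (StrongDual 𝕜 X)) : Set (StrongDual 𝕜 X) :=
  {ξ | ∀ B : ℕ → Set (StrongDual 𝕜 X), A = (⋃ n, B n) →
    ξ ∈ closure (convexHull ℝ (⋃ n, wclosure 𝕜 X (convexHull ℝ (B n))))}

end Defs

section Real

variable {X : Type*} [NormedAddCommGroup X] [NormedSpace ℝ X]

/-- the elementwise description of the weak-star closure, real scalars. -/
theorem mem_closure_of_near (S : Set (StrongDual ℝ X)) (φ : StrongDual ℝ X)
    (h : ∀ F : Finset X, ∀ ε : ℝ, 0 < ε → ∃ ψ ∈ S, ∀ x ∈ F, |φ x - ψ x| < ε) :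
    StrongDual.toWeakDual φ ∈ closure (StrongDual.toWeakDual '' S) := by
  classical
  have hind : Topology.IsInducing (fun (f : WeakDual ℝ X) (x : X) => f x) := ⟨rfl⟩
  rw [hind.closure_eq_preimage_closure_image, mem_preimage, _root_.mem_closure_iff]
  intro o ho hmem
  rw [isOpen_pi_iff] at ho
  obtain ⟨I, u, hu, hsub⟩ := ho _ hmem
  have hex : ∀ a ∈ I, ∃ ε : ℝ, 0 < ε ∧ ∀ y : ℝ, |φ a - y| < ε → y ∈ u a := by
    intro a ha
    obtain ⟨h1, h2⟩ := hu a ha
    obtain ⟨ε, hε, hb⟩ := Metric.isOpen_iff.1 h1 _ h2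
    refine ⟨ε, hε, fun y hy => hb ?_⟩
    rw [Metric.mem_ball, Real.dist_eq, abs_sub_comm]
    exact hy
  have hex2 : ∃ ε : ℝ, 0 < ε ∧ ∀ a ∈ I, ∀ y : ℝ, |φ a - y| < ε → y ∈ u a := by
    clear hmem hsub hu
    induction I using Finset.induction_on with
    | empty => exact ⟨1, one_pos, fun a ha => absurd ha (Finset.notMem_empty a)⟩
    | insert b J _ ih =>
      obtain ⟨ε1, h1, h2⟩ := ih (fun a ha => hex a (Finset.mem_insert_of_mem ha))
      obtain ⟨ε2, h3, h4⟩ := hex b (Finset.mem_insert_self b J)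
      refine ⟨min ε1 ε2, lt_min h1 h3, fun a ha y hy => ?_⟩
      rcases Finset.mem_insert.1 ha with rfl | ha
      · exact h4 y (hy.trans_le (min_le_right _ _))
      · exact h2 a ha y (hy.trans_le (min_le_left _ _))
  obtain ⟨ε, hε, hall⟩ := hex2
  obtain ⟨ψ, hψ, hnear⟩ := h I ε hε
  refine ⟨fun x => ψ x, hsub ?_, ⟨StrongDual.toWeakDual ψ, ⟨ψ, hψ, rfl⟩, rfl⟩⟩
  intro a ha
  exact hall a ha _ (hnear a ha)

end Real

section Main

variable {𝕜 : Type*} [RCLike 𝕜] {X : Type*} [NormedAddCommGroup X] [NormedSpace 𝕜 X]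

theorem aux [NormedSpace ℝ X] [IsScalarTower ℝ 𝕜 X] [CompleteSpace X]
    [TopologicalSpace.SeparableSpace X] (B : ℕ → Set (StrongDual 𝕜 X))
    (hB : Exposed 𝕜 X ⊆ ⋃ n, B n) :
    closedBall (0 : StrongDual 𝕜 X) 1 ⊆
      closure (convexHull ℝ (⋃ n, wclosure 𝕜 X (convexHull ℝ (B n)))) := by
  intro ξ hξ
  rw [mem_closedBall_zero_iff] at hξ
  let T : StrongDual ℝ X ≃ₗᵢ[ℝ] StrongDual 𝕜 X := StrongDual.extendRCLikeₗᵢ
  have hTre : ∀ (φ : StrongDual ℝ X) (x : X), RCLike.re (T φ x) = φ x := fun φ x =>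
    StrongDual.re_extendRCLike_apply φ x
  let B' : ℕ → Set (X →L[ℝ] ℝ) := fun n => T ⁻¹' (B n)
  have hcov : {φ : X →L[ℝ] ℝ | ‖φ‖ ≤ 1 ∧ ∃ x : X, ∀ ψ : X →L[ℝ] ℝ, ‖ψ‖ ≤ 1 → ψ ≠ φ → ψ x < φ x}
      ⊆ ⋃ n, B' n := by
    rintro φ ⟨h1, x, hx⟩
    have hmem : T φ ∈ Exposed 𝕜 X := by
      refine ⟨by rw [T.norm_map]; exact h1, x, fun η hη hne => ?_⟩
      obtain ⟨ψ, rfl⟩ := T.surjective η
      rw [hTre, hTre]
      rw [T.norm_map] at hη
      exact hx ψ hη (fun h => hne (by rw [h]))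
    have := hB hmem
    rw [mem_iUnion] at this ⊢
    exact this
  have hmain := Pool.Agent.Lib.MP_2f7009_an.main_thm B' hcov
  have h2 : T.symm ξ ∈ closedBall (0 : X →L[ℝ] ℝ) 1 := by
    rw [mem_closedBall_zero_iff, T.symm.norm_map]; exact hξ
  have h3 := hmain h2
  have h4 : T '' (convexHull ℝ (⋃ n, Pool.Agent.Lib.MP_2f7009_an.WW (B' n))) ⊆
      convexHull ℝ (⋃ n, wclosure 𝕜 X (convexHull ℝ (B n))) := by
    have himg : T '' (convexHull ℝ (⋃ n, Pool.Agent.Lib.MP_2f7009_an.WW (B' n))) =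
        convexHull ℝ (T '' (⋃ n, Pool.Agent.Lib.MP_2f7009_an.WW (B' n))) :=
      (T.toLinearEquiv.toLinearMap).image_convexHull _
    rw [himg]
    refine convexHull_mono ?_
    rintro _ ⟨φ, hφ, rfl⟩
    obtain ⟨n, hn⟩ := mem_iUnion.1 hφ
    refine mem_iUnion.2 ⟨n, ?_⟩
    have h5 : StrongDual.toWeakDual φ ∈
        closure (StrongDual.toWeakDual '' (convexHull ℝ (B' n))) := mem_closure_of_near _ φ hn
    have h6 : WeakDual.extendRCLikeL (𝕜 := 𝕜) (StrongDual.toWeakDual φ) ∈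
        closure (WeakDual.extendRCLikeL (𝕜 := 𝕜) ''
          (StrongDual.toWeakDual '' (convexHull ℝ (B' n)))) :=
      image_closure_subset_closure_image (WeakDual.extendRCLikeL (𝕜 := 𝕜) (F := X)).continuous
        ⟨_, h5, rfl⟩
    show StrongDual.toWeakDual (T φ) ∈ closure (StrongDual.toWeakDual '' (convexHull ℝ (B n)))
    refine closure_mono ?_ h6
    rintro _ ⟨_, ⟨ψ, hψ, rfl⟩, rfl⟩
    refine ⟨T ψ, ?_, rfl⟩
    have h7 : T '' (convexHull ℝ (B' n)) = convexHull ℝ (T '' (B' n)) :=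
      (T.toLinearEquiv.toLinearMap).image_convexHull _
    have h8 : T ψ ∈ convexHull ℝ (T '' (B' n)) := h7 ▸ ⟨ψ, hψ, rfl⟩
    exact convexHull_mono (image_preimage_subset _ _) h8
  have h9 : T (T.symm ξ) ∈ closure (T '' (convexHull ℝ
      (⋃ n, Pool.Agent.Lib.MP_2f7009_an.WW (B' n)))) :=
    image_closure_subset_closure_image T.continuous ⟨_, h3, rfl⟩
  rw [T.apply_symm_apply] at h9
  exact closure_mono h4 h9

theorem wclosure_ball (S : Set (StrongDual 𝕜 X)) (hS : S ⊆ closedBall 0 1) :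
    wclosure 𝕜 X S ⊆ closedBall 0 1 := by
  intro φ hφ
  have h1 : StrongDual.toWeakDual '' S ⊆ WeakDual.toStrongDual ⁻¹' closedBall (0 : StrongDual 𝕜 X) 1 := by
    rintro _ ⟨ψ, hψ, rfl⟩
    exact hS hψ
  exact closure_minimal h1 (WeakDual.isClosed_closedBall 0 1) hφ

end Main

end Pool.Agent.Results.MP_2f7009_an.AllScalars

open Pool.Agent.Results.MP_2f7009_an.AllScalars in
/-- For every separable Banach space `X` over `𝕜 = ℝ` or `ℂ`, the dual unit ball is the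
(I)-envelope of the set of its weak-star exposed points. -/
theorem Pool.Agent.Results.MP_2f7009_an.AllScalars.result
    (𝕜 : Type*) [RCLike 𝕜] (X : Type*) [NormedAddCommGroup X] [NormedSpace 𝕜 X] [CompleteSpace X]
    [TopologicalSpace.SeparableSpace X] :
    closedBall (0 : StrongDual 𝕜 X) 1 = Ienv 𝕜 X (Exposed 𝕜 X) := by
  apply Subset.antisymm
  · intro ξ hξ B hB
    let _ : NormedSpace ℝ X := NormedSpace.restrictScalars ℝ 𝕜 X
    have _ : IsScalarTower ℝ 𝕜 X := RestrictScalars.isScalarTower ℝ 𝕜 X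
    exact aux B hB.subset hξ
  · intro ξ hξ
    have h1 := hξ (fun _ => Exposed 𝕜 X) (by rw [iUnion_const])
    refine closure_minimal (convexHull_min (iUnion_subset fun n => wclosure_ball _ ?_)
      (convex_closedBall _ _)) isClosed_closedBall h1
    exact convexHull_min (fun φ hφ => mem_closedBall_zero_iff.2 hφ.1) (convex_closedBall _ _)
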